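import Pool.Agent.Helper98.PillaiCount.Local
import Pool.Agent.Helper45.Pillai.Basic

/-!
# The contribution of the primes which are not Pillai primes

If `q` divides `(2k)! - 1` and is not a Pillai prime, then `q = 2k + n + 1` with `n ∣ 2k`, so
`q ≤ 4k + 1` and `n` divides `q - 1`.  For `k ≤ K` there are at most `J` such `k` with
`n ≥ (q - 1) / J`, and the other `k` lie in an interval of length `2K / J + 1`.
-/

set_option autoImplicit false

namespace Pool.Agent.Helper98.PillaiCount

open Nat Finset Pool.Agent.Helper45.Pillai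

/-- the indices `k` with `q ∣ (2k)! - 1` -/
def idx (q K : ℕ) : Finset ℕ := (Finset.Icc 1 K).filter (fun k => q ∣ av k)

theorem idx_spec {q K k : ℕ} (hp : q.Prime) (hq : ¬ Pillai q) (hk : k ∈ idx q K) :
    1 ≤ k ∧ k ≤ K ∧ ∃ n, 0 < n ∧ n ∣ q - 1 ∧ n ≤ 2 * k ∧ q = 2 * k + n + 1 := by
  unfold idx at hk
  rw [Finset.mem_filter, Finset.mem_Icc] at hk
  obtain ⟨⟨h1, h2⟩, h3⟩ := hk
  refine ⟨h1, h2, ?_⟩
  rcases pillai_of_even (2 * k) q (by omega) ⟨k, by ring⟩ hp h3 with h | ⟨n, hn, hqn⟩
  · exact absurd h hq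
  · have hn0 : 0 < n := Nat.pos_of_dvd_of_pos hn (by omega)
    refine ⟨n, hn0, ?_, Nat.le_of_dvd (by omega) hn, hqn⟩
    rw [hqn, show 2 * k + n + 1 - 1 = 2 * k + n by omega]
    exact (Nat.dvd_add_right hn).2 (dvd_refl n)

theorem bad_le {q K k : ℕ} (hp : q.Prime) (hq : ¬ Pillai q) (hk : k ∈ idx q K) :
    q ≤ 4 * K + 1 := by
  obtain ⟨-, h2, n, -, -, h4, h5⟩ := idx_spec hp hq hk
  omega

/-- the number of indices with large `n` -/
theorem card_big {q K J : ℕ} (hp : q.Prime) (hq : ¬ Pillai q) :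
    ((idx q K).filter (fun k => q - 1 ≤ J * (q - 1 - 2 * k))).card ≤ J := by
  have h : ((idx q K).filter (fun k => q - 1 ≤ J * (q - 1 - 2 * k))).card
      ≤ (Finset.Icc 1 J).card := by
    apply Finset.card_le_card_of_injOn (fun k => (q - 1) / (q - 1 - 2 * k))
    · intro k hk
      rw [Finset.mem_coe, Finset.mem_filter] at hk
      obtain ⟨hk, hJ⟩ := hk
      obtain ⟨h1, h2, n, hn0, hn, h4, h5⟩ := idx_spec hp hq hk
      have e : q - 1 - 2 * k = n := by omega
      rw [e] at hJ
      simp only [Finset.coe_Icc, Set.mem_Icc, e]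
      constructor
      · exact Nat.div_pos (Nat.le_of_dvd (by omega) hn) hn0
      · exact Nat.div_le_of_le_mul (by rw [mul_comm]; exact hJ)
    · intro k hk j hj hkj
      rw [Finset.mem_coe, Finset.mem_filter] at hk hj
      obtain ⟨h1, h2, n, hn0, hn, h4, h5⟩ := idx_spec hp hq hk.1
      obtain ⟨h1', h2', m, hm0, hm, h4', h5'⟩ := idx_spec hp hq hj.1
      have e : q - 1 - 2 * k = n := by omega
      have e' : q - 1 - 2 * j = m := by omega
      simp only [e, e'] at hkj
      have hq1 : q - 1 ≠ 0 := by omega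
      have hnm : n = m := by
        rw [← Nat.div_div_self hn hq1, ← Nat.div_div_self hm hq1, hkj]
      omega
  rwa [Nat.card_Icc, Nat.add_sub_cancel] at h

/-- the total weight of a prime which is not a Pillai prime -/
theorem bad_weight {q K J : ℕ} (hp : q.Prime) (hq : ¬ Pillai q) (hK : 1 ≤ K) (hJ : 0 < J) :
    ∑ k ∈ Finset.Icc 1 K, wt q k ≤
      (J + 1) * (2 * K * Real.log (2 * K)) +
        ((2 * K / J + 1 : ℕ) : ℝ) * (2 * Real.log (2 * K)) * (1 + Real.log K) := by
  have hK0 : (1 : ℝ) ≤ K := by exact_mod_cast hK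
  have hlogK : 0 ≤ Real.log (2 * K) := Real.log_nonneg (by linarith)
  have hsub : ∑ k ∈ Finset.Icc 1 K, wt q k = ∑ k ∈ idx q K, wt q k := by
    symm
    apply Finset.sum_subset (Finset.filter_subset _ _)
    intro k hk hk'
    rw [Finset.mem_filter, not_and] at hk'
    have : ¬ q ∣ av k := hk' hk
    unfold wt
    rw [Nat.factorization_eq_zero_of_not_dvd this]
    simp
  rw [hsub, ← Finset.sum_filter_add_sum_filter_not (idx q K)
    (fun k => q - 1 ≤ J * (q - 1 - 2 * k))]
  have h1 : ∑ k ∈ (idx q K).filter (fun k => q - 1 ≤ J * (q - 1 - 2 * k)), wt q k ≤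
      J * (2 * K * Real.log (2 * K)) := by
    have h2 : ∑ k ∈ (idx q K).filter (fun k => q - 1 ≤ J * (q - 1 - 2 * k)), wt q k ≤
        ((idx q K).filter (fun k => q - 1 ≤ J * (q - 1 - 2 * k))).card •
          (2 * K * Real.log (2 * K)) := by
      apply Finset.sum_le_card_nsmul
      intro k hk
      obtain ⟨h1, h2, -⟩ := idx_spec hp hq (Finset.mem_filter.1 hk).1
      exact wt_le h1 h2
    rw [nsmul_eq_mul] at h2
    refine h2.trans ?_
    apply mul_le_mul_of_nonneg_right _ (by positivity)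
    exact_mod_cast card_big hp hq
  have h3 : ∑ k ∈ (idx q K).filter (fun k => ¬ (q - 1 ≤ J * (q - 1 - 2 * k))), wt q k ≤
      2 * K * Real.log (2 * K) +
        ((2 * K / J + 1 : ℕ) : ℝ) * (2 * Real.log (2 * K)) * (1 + Real.log K) := by
    rcases ((idx q K).filter (fun k => ¬ (q - 1 ≤ J * (q - 1 - 2 * k)))).eq_empty_or_nonempty
      with he | ⟨k0, hk0⟩
    · rw [he, Finset.sum_empty]
      have : 0 ≤ Real.log K := Real.log_nonneg hK0
      positivity
    have hq4 : q ≤ 4 * K + 1 := bad_le hp hq (Finset.mem_filter.1 hk0).1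
    apply sum_wt_le (u := (q - 1 - (q - 1) / J) / 2) hp.two_le hK
    · intro k hk
      obtain ⟨hk1, hk2⟩ := Finset.mem_filter.1 hk
      obtain ⟨h1, h2, n, hn0, hn, h4, h5⟩ := idx_spec hp hq hk1
      have e : q - 1 - 2 * k = n := by omega
      rw [e, not_le] at hk2
      have h6 : n ≤ (q - 1) / J := by
        rw [Nat.le_div_iff_mul_le hJ, mul_comm]
        exact hk2.le
      have h7 : (q - 1) / J ≤ q - 1 := Nat.div_le_self _ _
      have h8 : (q - 1) / J ≤ 2 * (2 * K / J) + 1 := by
        have h9 : (q - 1) / J ≤ (4 * K) / J := Nat.div_le_div_right (by omega)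
        have h10 : (4 * K) / J ≤ 2 * (2 * K / J) + 1 := by
          rw [← Nat.lt_succ_iff, Nat.div_lt_iff_lt_mul hJ]
          have h11 : 2 * K < (2 * K / J + 1) * J := Nat.lt_mul_of_div_lt (Nat.lt_succ_self _) hJ
          calc 4 * K = 2 * (2 * K) := by ring
            _ < 2 * ((2 * K / J + 1) * J) := by omega
            _ = _ := by simp only [Nat.succ_eq_add_one]; ring
        exact h9.trans h10
      generalize hD : (q - 1) / J = D at *
      generalize hE : 2 * K / J = E at *
      constructor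
      · omega
      · omega
    · intro k hk
      exact (idx_spec hp hq (Finset.mem_filter.1 hk).1).1
    · intro k hk
      exact (idx_spec hp hq (Finset.mem_filter.1 hk).1).2.1
  linarith

end Pool.Agent.Helper98.PillaiCount
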