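import Pool.Agent.Helper98.PillaiCount.Bad

/-!
# Many Pillai primes below `(2K)!`

For all large `K` there are at least `K / (192 log K)` Pillai primes `p ≤ (2K)!`.
-/

set_option autoImplicit false

namespace Pool.Agent.Helper98.PillaiCount

open Nat Finset Filter Pool.Agent.Helper45.Pillai

/-- all prime factors of the numbers `(2k)! - 1`, `k ≤ K` -/
def pf (K : ℕ) : Finset ℕ := (Finset.Icc 1 K).biUnion (fun k => (av k).primeFactors)

theorem mem_pf {q K : ℕ} : q ∈ pf K ↔ q.Prime ∧ ∃ k, 1 ≤ k ∧ k ≤ K ∧ q ∣ av k := by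
  unfold pf
  simp only [Finset.mem_biUnion, Finset.mem_Icc, Nat.mem_primeFactors]
  constructor
  · rintro ⟨k, ⟨h1, h2⟩, h3, h4, -⟩
    exact ⟨h3, k, h1, h2, h4⟩
  · rintro ⟨h3, k, h1, h2, h4⟩
    exact ⟨k, ⟨h1, h2⟩, h3, h4, (av_pos h1).ne'⟩

theorem log_av_eq {k K : ℕ} (h1 : 1 ≤ k) (h2 : k ≤ K) :
    Real.log (av k) = ∑ q ∈ pf K, wt q k := by
  rw [Real.log_nat_eq_sum_factorization, Finsupp.sum]
  apply Finset.sum_subset
  · intro q hq
    rw [Nat.support_factorization, Nat.mem_primeFactors] at hq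
    exact mem_pf.2 ⟨hq.1, k, h1, h2, hq.2.1⟩
  · intro q hq hq'
    rw [Finsupp.notMem_support_iff] at hq'
    rw [hq']
    simp

/-- the lower bound for the total weight -/
theorem log_av_ge {k : ℕ} (h1 : 1 ≤ k) : k * Real.log k ≤ Real.log (av k) := by
  have h2 : k ^ k ≤ av k := by
    have h3 : k ! * (k + 1) ^ k ≤ (k + k)! := Nat.factorial_mul_pow_le_factorial
    have h4 : (k + 1) ^ k ≤ k ! * (k + 1) ^ k := Nat.le_mul_of_pos_left _ (Nat.factorial_pos _)
    have h5 : k ^ k < (k + 1) ^ k := Nat.pow_lt_pow_left (Nat.lt_succ_self _) (by omega)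
    unfold av
    rw [two_mul]
    omega
  have h3 : ((k : ℝ) ^ k) ≤ av k := by exact_mod_cast h2
  have h0 : (0 : ℝ) < k := by exact_mod_cast h1
  have h4 := Real.log_le_log (pow_pos h0 k) h3
  rwa [Real.log_pow] at h4

theorem total_ge {K : ℕ} (hK : 4 ≤ K) :
    (K : ℝ) ^ 2 * Real.log K / 8 ≤ ∑ k ∈ Finset.Icc 1 K, Real.log (av k) := by
  have hK4 : (4 : ℝ) ≤ K := by exact_mod_cast hK
  have h1 : ∑ k ∈ Finset.Icc ((K + 1) / 2) K, ((K : ℝ) / 2 * Real.log (K / 2)) ≤
      ∑ k ∈ Finset.Icc 1 K, Real.log (av k) := by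
    calc ∑ k ∈ Finset.Icc ((K + 1) / 2) K, ((K : ℝ) / 2 * Real.log (K / 2)) ≤
        ∑ k ∈ Finset.Icc ((K + 1) / 2) K, Real.log (av k) := by
          apply Finset.sum_le_sum
          intro k hk
          rw [Finset.mem_Icc] at hk
          have hk1 : 1 ≤ k := by omega
          refine le_trans ?_ (log_av_ge hk1)
          have h2 : (K : ℝ) ≤ 2 * k := by
            have : K ≤ 2 * k := by omega
            exact_mod_cast this
          have h3 : (K : ℝ) / 2 ≤ k := by linarith
          apply mul_le_mul h3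
          · exact Real.log_le_log (by linarith) h3
          · exact Real.log_nonneg (by linarith)
          · exact Nat.cast_nonneg _
      _ ≤ _ := by
          apply Finset.sum_le_sum_of_subset_of_nonneg
          · apply Finset.Icc_subset_Icc_left
            omega
          · intro k _ _
            exact Real.log_natCast_nonneg _
  refine le_trans ?_ h1
  rw [Finset.sum_const, Nat.card_Icc, nsmul_eq_mul]
  have h2 : (K : ℝ) / 2 ≤ ((K + 1 - (K + 1) / 2 : ℕ) : ℝ) := by
    have : K ≤ 2 * (K + 1 - (K + 1) / 2) := by omega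
    have h3 : (K : ℝ) ≤ ((2 * (K + 1 - (K + 1) / 2) : ℕ) : ℝ) := by exact_mod_cast this
    push_cast at h3 ⊢
    linarith
  have h3 : Real.log K / 2 ≤ Real.log (K / 2) := by
    have h4 : Real.log K ≤ 2 * Real.log (K / 2) := by
      have h5 : (2 : ℝ) * Real.log (K / 2) = Real.log ((K / 2) ^ 2) := by
        rw [Real.log_pow]; norm_num
      rw [h5]
      apply Real.log_le_log (by linarith)
      nlinarith
    linarith
  have hlog : 0 ≤ Real.log K := Real.log_nonneg (by linarith)
  calc (K : ℝ) ^ 2 * Real.log K / 8 = (K : ℝ) / 2 * ((K : ℝ) / 2 * (Real.log K / 2)) := by ring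
    _ ≤ _ := by
      apply mul_le_mul h2
      · apply mul_le_mul_of_nonneg_left h3
        positivity
      · positivity
      · exact Nat.cast_nonneg _

open Classical in
/-- the Pillai primes up to `n` -/
noncomputable def pill (n : ℕ) : Finset ℕ := (Finset.range (n + 1)).filter Pillai

open Classical in
theorem card_good (K : ℕ) : ((pf K).filter Pillai).card ≤ (pill (2 * K)!).card := by
  apply Finset.card_le_card
  intro q hq
  obtain ⟨h1, h2⟩ := Finset.mem_filter.1 hq
  obtain ⟨-, k, hk1, hk2, hk3⟩ := mem_pf.1 h1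
  unfold pill
  rw [Finset.mem_filter, Finset.mem_range]
  refine ⟨?_, h2⟩
  have h3 := Nat.le_of_dvd (av_pos hk1) hk3
  have h4 := av_lt k
  have h5 : (2 * k)! ≤ (2 * K)! := Nat.factorial_le (by omega)
  omega

open Classical in
theorem card_bad (K : ℕ) :
    ((pf K).filter (fun q => ¬ Pillai q)).card ≤ Nat.primeCounting (4 * K + 1) := by
  rw [← Nat.primesLE_card_eq_primeCounting]
  apply Finset.card_le_card
  intro q hq
  obtain ⟨h1, h2⟩ := Finset.mem_filter.1 hq
  obtain ⟨hp, k, hk1, hk2, hk3⟩ := mem_pf.1 h1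
  rw [Nat.mem_primesLE]
  refine ⟨?_, hp⟩
  apply bad_le (k := k) hp h2
  unfold idx
  rw [Finset.mem_filter, Finset.mem_Icc]
  exact ⟨⟨hk1, hk2⟩, hk3⟩

/-- the main inequality -/
theorem main_ineq {K J : ℕ} (hK : 1 ≤ K) (hJ : 0 < J) :
    ∑ k ∈ Finset.Icc 1 K, Real.log (av k) ≤
      (pill (2 * K)!).card *
        (2 * K * Real.log (2 * K) + K * (2 * Real.log (2 * K)) * (1 + Real.log K)) +
      Nat.primeCounting (4 * K + 1) * ((J + 1) * (2 * K * Real.log (2 * K)) +
        ((2 * K / J + 1 : ℕ) : ℝ) * (2 * Real.log (2 * K)) * (1 + Real.log K)) := by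
  classical
  have hK0 : (1 : ℝ) ≤ K := by exact_mod_cast hK
  have hlogK : 0 ≤ Real.log (2 * K) := Real.log_nonneg (by linarith)
  have hlogK' : 0 ≤ Real.log K := Real.log_nonneg hK0
  have e1 : ∑ k ∈ Finset.Icc 1 K, Real.log (av k) =
      ∑ q ∈ pf K, ∑ k ∈ Finset.Icc 1 K, wt q k := by
    rw [Finset.sum_comm]
    apply Finset.sum_congr rfl
    intro k hk
    rw [Finset.mem_Icc] at hk
    exact log_av_eq hk.1 hk.2
  rw [e1, ← Finset.sum_filter_add_sum_filter_not (pf K) Pillai]
  apply _root_.add_le_add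
  · have h1 : ∑ q ∈ (pf K).filter Pillai, ∑ k ∈ Finset.Icc 1 K, wt q k ≤
        ((pf K).filter Pillai).card • (2 * K * Real.log (2 * K) +
          K * (2 * Real.log (2 * K)) * (1 + Real.log K)) := by
      apply Finset.sum_le_card_nsmul
      intro q hq
      have hp := (mem_pf.1 (Finset.mem_filter.1 hq).1).1
      apply sum_wt_le (u := 0) hp.two_le hK
      · intro k hk
        rw [Finset.mem_Icc] at hk
        omega
      · intro k hk
        exact (Finset.mem_Icc.1 hk).1
      · intro k hk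
        exact (Finset.mem_Icc.1 hk).2
    rw [nsmul_eq_mul] at h1
    refine h1.trans ?_
    apply mul_le_mul_of_nonneg_right _ (by positivity)
    exact_mod_cast card_good K
  · have h1 : ∑ q ∈ (pf K).filter (fun q => ¬ Pillai q), ∑ k ∈ Finset.Icc 1 K, wt q k ≤
        ((pf K).filter (fun q => ¬ Pillai q)).card • ((J + 1) * (2 * K * Real.log (2 * K)) +
        ((2 * K / J + 1 : ℕ) : ℝ) * (2 * Real.log (2 * K)) * (1 + Real.log K)) := by
      apply Finset.sum_le_card_nsmul
      intro q hq
      have hp := (mem_pf.1 (Finset.mem_filter.1 hq).1).1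
      exact bad_weight hp (Finset.mem_filter.1 hq).2 hK hJ
    rw [nsmul_eq_mul] at h1
    refine h1.trans ?_
    apply mul_le_mul_of_nonneg_right _ (by positivity)
    exact_mod_cast card_bad K

/-- Chebyshev's bound in the form we use -/
theorem eventually_pi : ∀ᶠ K : ℕ in atTop,
    (Nat.primeCounting (4 * K + 1) : ℝ) ≤ 12 * K / Real.log K := by
  have h1 := Chebyshev.eventually_primeCounting_le (ε := 1) one_pos
  have h2 : Tendsto (fun K : ℕ => ((4 * K + 1 : ℕ) : ℝ)) atTop atTop := by
    apply tendsto_natCast_atTop_atTop.comp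
    apply tendsto_atTop_mono (fun n => (by omega : n ≤ 4 * n + 1)) tendsto_id
  filter_upwards [h2.eventually h1, eventually_ge_atTop 2] with K hK hK2
  rw [Nat.floor_natCast] at hK
  refine hK.trans ?_
  have hKr : (2 : ℝ) ≤ K := by exact_mod_cast hK2
  have hl : 0 < Real.log K := Real.log_pos (by linarith)
  have h4 : Real.log 4 + 1 ≤ 2.4 := by
    have h5 : Real.log 4 = 2 * Real.log 2 := by
      rw [show (4 : ℝ) = 2 ^ 2 by norm_num, Real.log_pow]; norm_num
    have h6 := Real.log_two_lt_d9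
    rw [h5]
    linarith
  have h5 : Real.log K ≤ Real.log ((4 * K + 1 : ℕ) : ℝ) := by
    apply Real.log_le_log (by linarith)
    push_cast
    linarith
  have h6 : (Real.log 4 + 1) * ((4 * K + 1 : ℕ) : ℝ) ≤ 12 * K := by
    push_cast
    nlinarith
  apply div_le_div₀ (by positivity) h6 hl h5

/-- the arithmetic of the main inequality -/
theorem arith {K l L pn S T : ℝ} (hK : 6144 ≤ K) (hl : 18877440 ≤ l) (hL0 : 0 ≤ L)
    (hL : L ≤ 2 * l) (hp : pn ≤ 12 * K / l) (hS0 : 0 ≤ S)
    (hT0 : 0 ≤ T) (hT : T ≤ 2 * K / 6144 + 1)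
    (h : K ^ 2 * l / 8 ≤ S * (2 * K * L + K * (2 * L) * (1 + l)) +
      pn * ((6144 + 1) * (2 * K * L) + T * (2 * L) * (1 + l))) :
    K / (192 * l) ≤ S := by
  have hl0 : 0 < l := by linarith
  have hK0 : 0 < K := by linarith
  have h1 : pn * ((6144 + 1) * (2 * K * L) + T * (2 * L) * (1 + l)) ≤ K ^ 2 * l / 16 := by
    have h2 : (6144 + 1) * (2 * K * L) + T * (2 * L) * (1 + l) ≤
        6145 * (4 * K * l) + (2 * K / 6144 + 1) * (4 * l) * (2 * l) := by
      have h3 : 2 * K * L ≤ 4 * K * l := by nlinarith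
      have h4 : T * (2 * L) * (1 + l) ≤ (2 * K / 6144 + 1) * (4 * l) * (2 * l) := by
        apply mul_le_mul
        · apply mul_le_mul hT (by linarith) (by linarith) (by positivity)
        · linarith
        · linarith
        · positivity
      linarith
    calc pn * ((6144 + 1) * (2 * K * L) + T * (2 * L) * (1 + l)) ≤
        (12 * K / l) * (6145 * (4 * K * l) + (2 * K / 6144 + 1) * (4 * l) * (2 * l)) := by
          apply mul_le_mul hp h2 _ (by positivity)
          positivity
      _ = 294960 * K ^ 2 + 192 / 6144 * K ^ 2 * l + 96 * K * l := by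
          field_simp
          ring
      _ ≤ K ^ 2 * l / 16 := by
          have h5 : 294960 * K ^ 2 ≤ K ^ 2 * l / 64 := by nlinarith [sq_nonneg K]
          have h6 : 96 * K * l ≤ K ^ 2 * l / 64 := by
            have : 96 * (K * l) ≤ K * (K * l) / 64 := by
              have h7 : 0 < K * l := by positivity
              nlinarith
            nlinarith
          nlinarith
  have h2 : 2 * K * L + K * (2 * L) * (1 + l) ≤ 12 * K * l ^ 2 := by
    have h3 : 2 * K * L ≤ 4 * K * l := by nlinarith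
    have h4 : K * (2 * L) * (1 + l) ≤ K * (4 * l) * (1 + l) := by
      apply mul_le_mul_of_nonneg_right _ (by linarith)
      apply mul_le_mul_of_nonneg_left (by linarith) hK0.le
    have h5 : K * l ≤ K * l ^ 2 := by
      have : l ≤ l ^ 2 := by nlinarith
      exact mul_le_mul_of_nonneg_left this hK0.le
    nlinarith
  have h3 : K ^ 2 * l / 16 ≤ S * (12 * K * l ^ 2) := by
    have h4 := mul_le_mul_of_nonneg_left h2 hS0
    linarith
  rw [div_le_iff₀ (by positivity)]
  have h5 : K * (K * l) ≤ (S * (192 * l)) * (K * l) := by nlinarith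
  exact le_of_mul_le_mul_right h5 (by positivity)

/-- many Pillai primes below `(2K)!` -/
theorem eventually_pill : ∀ᶠ K : ℕ in atTop,
    (K : ℝ) / (192 * Real.log K) ≤ (pill (2 * K)!).card := by
  have hlog : Tendsto (fun K : ℕ => Real.log (K : ℝ)) atTop atTop :=
    Real.tendsto_log_atTop.comp tendsto_natCast_atTop_atTop
  filter_upwards [eventually_pi, eventually_ge_atTop 6144,
    hlog.eventually_ge_atTop 18877440] with K h1 h2 h3
  have hK : (6144 : ℝ) ≤ K := by exact_mod_cast h2
  have hL : Real.log (2 * K) ≤ 2 * Real.log K := by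
    rw [Real.log_mul (by norm_num) (by linarith)]
    have : Real.log 2 ≤ Real.log K := Real.log_le_log (by norm_num) (by linarith)
    linarith
  have hT : ((2 * K / 6144 + 1 : ℕ) : ℝ) ≤ 2 * K / 6144 + 1 := by
    have h4 : ((2 * K / 6144 : ℕ) : ℝ) ≤ ((2 * K : ℕ) : ℝ) / ((6144 : ℕ) : ℝ) := Nat.cast_div_le
    push_cast at h4 ⊢
    linarith
  have h5 := (total_ge (by omega : 4 ≤ K)).trans (main_ineq (J := 6144) (by omega) (by norm_num))
  refine arith hK h3 (Real.log_nonneg (by linarith)) hL h1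
    (Nat.cast_nonneg _) (Nat.cast_nonneg _) hT ?_
  push_cast at h5 ⊢
  exact h5

end Pool.Agent.Helper98.PillaiCount
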