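import Pool.Agent.Helper98.PillaiCount.Count

/-!
# A lower bound for the number of Pillai primes

For all large `x` there are at least `log x / (768 (log log x) ^ 2)` Pillai primes `p ≤ x`.
-/

set_option autoImplicit false

namespace Pool.Agent.Helper98.PillaiCount

open Nat Finset Filter Pool.Agent.Helper45.Pillai

theorem coe_pill_subset {K : ℕ} {x : ℝ} (hx : 0 < x)
    (h : 2 * K * Real.log (2 * K) ≤ Real.log x) (hK : 1 ≤ K) :
    ((pill (2 * K)! : Finset ℕ) : Set ℕ) ⊆ {p : ℕ | (p : ℝ) ≤ x ∧ Pillai p} := by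
  classical
  intro p hp
  unfold pill at hp
  rw [Finset.mem_coe, Finset.mem_filter, Finset.mem_range] at hp
  refine ⟨?_, hp.2⟩
  have hK0 : (1 : ℝ) ≤ K := by exact_mod_cast hK
  have h1 : p ≤ (2 * K) ^ (2 * K) :=
    (Nat.lt_succ_iff.1 hp.1).trans (Nat.factorial_le_pow _)
  have h2 : (p : ℝ) ≤ (2 * K : ℝ) ^ (2 * K) := by exact_mod_cast h1
  refine h2.trans ?_
  rw [← Real.log_le_log_iff (by positivity) hx, Real.log_pow]
  push_cast
  exact h

theorem finite_pillai (x : ℝ) : {p : ℕ | (p : ℝ) ≤ x ∧ Pillai p}.Finite := by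
  apply (Set.finite_Iic ⌊x⌋₊).subset
  intro p hp
  exact Nat.le_floor hp.1

/-- the number of Pillai primes up to `x` -/
theorem pillai_count : ∀ᶠ x : ℝ in atTop,
    Real.log x / (768 * Real.log (Real.log x) ^ 2) ≤
      ({p : ℕ | (p : ℝ) ≤ x ∧ Pillai p}.ncard : ℝ) := by
  have ty : Tendsto (fun x : ℝ => Real.log x) atTop atTop := Real.tendsto_log_atTop
  have tz : Tendsto (fun x : ℝ => Real.log (Real.log x)) atTop atTop :=
    Real.tendsto_log_atTop.comp ty
  -- the argument `t = y / (2 z)` tends to infinity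
  have t1 : Tendsto (fun y : ℝ => y / (2 * Real.log y)) atTop atTop := by
    have h0 : (fun y : ℝ => Real.log y) =o[atTop] (fun y : ℝ => y) := Real.isLittleO_log_id_atTop
    have h1 : Tendsto (fun y : ℝ => Real.log y / y) atTop (nhds 0) := h0.tendsto_div_nhds_zero
    rw [Filter.tendsto_atTop]
    intro b
    have hb : (0 : ℝ) < 1 / (2 * (|b| + 1)) := by positivity
    filter_upwards [h1.eventually (gt_mem_nhds hb), eventually_gt_atTop 1] with y hy hy1
    have hlog : 0 < Real.log y := Real.log_pos hy1
    have hy0 : 0 < y := by linarith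
    rw [div_lt_div_iff₀ hy0 (by positivity)] at hy
    rw [le_div_iff₀ (by positivity)]
    have hb2 : b ≤ |b| := le_abs_self b
    nlinarith
  have tt : Tendsto (fun x : ℝ => Real.log x / (2 * Real.log (Real.log x))) atTop atTop :=
    t1.comp ty
  have tK : Tendsto (fun x : ℝ => ⌊Real.log x / (2 * Real.log (Real.log x))⌋₊) atTop atTop :=
    tendsto_nat_floor_atTop.comp tt
  filter_upwards [tK.eventually eventually_pill, tt.eventually_ge_atTop 4,
    tz.eventually_ge_atTop 1, ty.eventually_ge_atTop 1, eventually_gt_atTop 0]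
    with x h1 h2 h3 h4 hx
  set y := Real.log x with hy
  set z := Real.log y with hz
  set t := y / (2 * z) with ht
  set K := ⌊t⌋₊ with hK
  have hz0 : 0 < z := by linarith
  have hy0 : 0 < y := by linarith
  have hKt : (K : ℝ) ≤ t := Nat.floor_le (by linarith)
  have hKt' : t < K + 1 := Nat.lt_floor_add_one t
  have hK2 : t / 2 ≤ K := by linarith
  have hK1 : 1 ≤ K := by
    have : (1 : ℝ) ≤ K := by linarith
    exact_mod_cast this
  have hK3 : (3 : ℝ) ≤ K := by linarith
  have hty : t ≤ y := by
    rw [ht, div_le_iff₀ (by positivity)]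
    nlinarith
  have hsub : 2 * K * Real.log (2 * K) ≤ y := by
    have e1 : 2 * (K : ℝ) ≤ y / z := by
      have : y / z = 2 * t := by
        rw [ht]; field_simp
      linarith
    have e2 : Real.log (2 * K) ≤ z := by
      rw [hz]
      apply Real.log_le_log (by linarith)
      refine e1.trans ?_
      rw [div_le_iff₀ hz0]
      nlinarith
    calc 2 * K * Real.log (2 * K) ≤ (y / z) * z := by
          apply mul_le_mul e1 e2
          · exact Real.log_nonneg (by linarith)
          · positivity
      _ = y := by field_simp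
  have hcard : (pill (2 * K)!).card ≤ {p : ℕ | (p : ℝ) ≤ x ∧ Pillai p}.ncard := by
    rw [← Set.ncard_coe_finset]
    exact Set.ncard_le_ncard (coe_pill_subset hx hsub hK1) (finite_pillai x)
  have hcard' : ((pill (2 * K)!).card : ℝ) ≤ ({p : ℕ | (p : ℝ) ≤ x ∧ Pillai p}.ncard : ℝ) := by
    exact_mod_cast hcard
  refine le_trans ?_ (h1.trans hcard')
  have hlK : Real.log K ≤ z := by
    rw [hz]
    exact Real.log_le_log (by linarith) (hKt.trans hty)
  have hlK0 : 0 < Real.log K := Real.log_pos (by linarith)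
  calc y / (768 * z ^ 2) = (t / 2) / (192 * z) := by
        rw [ht]; field_simp; norm_num
    _ ≤ K / (192 * Real.log K) := by
        apply div_le_div₀ (Nat.cast_nonneg _) hK2 (by positivity)
        linarith

end Pool.Agent.Helper98.PillaiCount
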