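import Mathlib

/-!
# Powers of one prime in the numbers `(2k)! - 1`

If `q ^ e` divides `(2k)! - 1` and `(2k')! - 1` with `k < k' ≤ K`, then
`q ^ e ≤ (2k') ^ (2 (k' - k))`.  This bounds the total contribution of the prime `q` to the
numbers `(2k)! - 1` with `k` in an interval of length `L`.
-/

set_option autoImplicit false

namespace Pool.Agent.Helper98.PillaiCount

open Nat Finset

/-- the sequence `(2k)! - 1` -/
def av (k : ℕ) : ℕ := (2 * k)! - 1

theorem av_pos {k : ℕ} (hk : 1 ≤ k) : 0 < av k := by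
  have h : 2 * k ≤ (2 * k)! := Nat.self_le_factorial _
  unfold av
  omega

theorem av_lt (k : ℕ) : av k < (2 * k)! := by
  have h : 0 < (2 * k)! := Nat.factorial_pos _
  unfold av
  omega

/-- the gap lemma -/
theorem gap {d k k' : ℕ} (hk : 1 ≤ k) (hkk : k < k') (h1 : d ∣ av k) (h2 : d ∣ av k') :
    d ≤ (2 * k') ^ (2 * (k' - k)) := by
  set P := (2 * k + 1).ascFactorial (2 * (k' - k)) with hP
  have e1 : (2 * k)! * P = (2 * k')! := by
    rw [hP, Nat.factorial_mul_ascFactorial]
    congr 1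
    omega
  have e2 : P ≤ (2 * k') ^ (2 * (k' - k)) := by
    have := Nat.ascFactorial_le_pow_add (2 * k) (2 * (k' - k))
    rwa [show 2 * k + 2 * (k' - k) = 2 * k' by omega] at this
  have e3 : 1 < P := by
    have h3 := Nat.pow_succ_le_ascFactorial (2 * k + 1) (2 * (k' - k))
    have h4 : 1 < (2 * k + 1) ^ (2 * (k' - k)) := Nat.one_lt_pow (by omega) (by omega)
    exact lt_of_lt_of_le h4 h3
  have h3 : d ∣ av k' - av k * P := Nat.dvd_sub h2 (h1.mul_right P)
  have h4 : av k' - av k * P = P - 1 := by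
    unfold av
    rw [← e1, Nat.sub_mul, one_mul]
    have hf : 1 ≤ (2 * k)! := Nat.factorial_pos _
    have : P ≤ (2 * k)! * P := Nat.le_mul_of_pos_left _ hf
    omega
  rw [h4] at h3
  have := Nat.le_of_dvd (by omega) h3
  omega

/-- the real form of the gap lemma -/
theorem gap_log {q e k k' K : ℕ} (hq : 2 ≤ q) (hk : 1 ≤ k) (hkk : k < k') (hK : k' ≤ K)
    (h1 : q ^ e ∣ av k) (h2 : q ^ e ∣ av k') :
    (e : ℝ) * Real.log q ≤ ((k' - k : ℕ) : ℝ) * (2 * Real.log (2 * K)) := by
  have h := gap hk hkk h1 h2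
  have h3 : ((q : ℝ) ^ e) ≤ ((2 * K : ℝ)) ^ (2 * (k' - k)) := by
    calc ((q : ℝ) ^ e) = ((q ^ e : ℕ) : ℝ) := by push_cast; rfl
      _ ≤ (((2 * k') ^ (2 * (k' - k)) : ℕ) : ℝ) := by exact_mod_cast h
      _ = ((2 * k' : ℝ)) ^ (2 * (k' - k)) := by push_cast; rfl
      _ ≤ _ := by
          apply pow_le_pow_left₀ (by positivity)
          have : (k' : ℝ) ≤ K := by exact_mod_cast hK
          linarith
  have hq0 : (0 : ℝ) < q := by
    have : 0 < q := by omega
    exact_mod_cast this
  have h4 := Real.log_le_log (pow_pos hq0 e) h3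
  rw [Real.log_pow, Real.log_pow] at h4
  push_cast at h4
  linarith

/-- a sum whose `j`-th largest term is at most `C / (j - 1)` -/
theorem sum_le_harmonic {ι : Type*} [DecidableEq ι] (w : ι → ℝ) (B C : ℝ) (s : ℕ) :
    ∀ A : Finset ι, A.card = s + 1 → (∀ k ∈ A, w k ≤ B) →
      (∀ A' ⊆ A, ∀ k ∈ A', (∀ j ∈ A', w k ≤ w j) → ((A'.card : ℝ) - 1) * w k ≤ C) →
      ∑ k ∈ A, w k ≤ B + C * (harmonic s : ℝ) := by
  induction s with
  | zero =>
    intro A hA hB _
    obtain ⟨a, rfl⟩ := Finset.card_eq_one.1 hA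
    simpa using hB a (by simp)
  | succ s ih =>
    intro A hA hB hC
    have hne : A.Nonempty := by
      rw [← Finset.card_pos]; omega
    obtain ⟨k, hk, hmin⟩ := Finset.exists_min_image A w hne
    have h1 := ih (A.erase k) (by rw [Finset.card_erase_of_mem hk]; omega)
      (fun j hj => hB j (Finset.mem_of_mem_erase hj))
      (fun A' hA' => hC A' (hA'.trans (Finset.erase_subset _ _)))
    have h2 := hC A (Finset.Subset.refl _) k hk hmin
    rw [hA] at h2
    push_cast at h2
    have h3 : w k ≤ C * ((s : ℝ) + 1)⁻¹ := by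
      have hs : (0 : ℝ) < (s : ℝ) + 1 := by positivity
      rw [← div_eq_mul_inv, le_div_iff₀ hs]
      linarith
    rw [← Finset.add_sum_erase _ _ hk, harmonic_succ]
    push_cast
    linarith

/-- separated points in an interval -/
theorem card_separated {A : Finset ℕ} {u L d : ℕ} (hd : 0 < d)
    (hA : ∀ k ∈ A, u ≤ k ∧ k ≤ u + L) (hsep : ∀ j ∈ A, ∀ k ∈ A, j < k → d ≤ k - j) :
    (A.card - 1) * d ≤ L := by
  have h1 : A.card ≤ (Finset.range (L / d + 1)).card := by
    apply Finset.card_le_card_of_injOn (fun k => (k - u) / d)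
    · intro k hk
      have hk' := hA k hk
      simp only [Finset.coe_range, Set.mem_Iio]
      have : (k - u) / d ≤ L / d := Nat.div_le_div_right (by omega)
      omega
    · have key : ∀ j ∈ A, ∀ k ∈ A, j < k → (j - u) / d < (k - u) / d := by
        intro j hj k hk hjk
        have h2 := hsep j hj k hk hjk
        have h3 := hA j hj
        have h4 : (j - u) + d ≤ k - u := by omega
        calc (j - u) / d < (j - u) / d + 1 := Nat.lt_succ_self _
          _ = ((j - u) + d) / d := by rw [Nat.add_div_right _ hd]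
          _ ≤ (k - u) / d := Nat.div_le_div_right h4
      intro j hj k hk hjk
      simp only at hjk
      rcases lt_trichotomy j k with h | h | h
      · have := key j hj k hk h
        omega
      · exact h
      · have := key k hk j hj h
        omega
  rw [Finset.card_range] at h1
  calc (A.card - 1) * d ≤ (L / d) * d := Nat.mul_le_mul_right _ (Nat.sub_le_of_le_add h1)
    _ ≤ L := Nat.div_mul_le_self _ _

/-- the weight of the prime `q` in `(2k)! - 1` -/
noncomputable def wt (q k : ℕ) : ℝ := ((av k).factorization q : ℝ) * Real.log q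

theorem wt_nonneg (q k : ℕ) : 0 ≤ wt q k :=
  mul_nonneg (Nat.cast_nonneg _) (Real.log_natCast_nonneg q)

theorem log_av_le {k K : ℕ} (hk : 1 ≤ k) (hK : k ≤ K) :
    Real.log (av k) ≤ 2 * K * Real.log (2 * K) := by
  have h0 : 0 < av k := av_pos hk
  have h1 : (av k : ℝ) ≤ (2 * K : ℝ) ^ (2 * K) := by
    have h2 : av k ≤ (2 * K) ^ (2 * K) :=
      calc av k ≤ (2 * k)! := (av_lt k).le
        _ ≤ (2 * K)! := Nat.factorial_le (by omega)
        _ ≤ (2 * K) ^ (2 * K) := Nat.factorial_le_pow _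
    exact_mod_cast h2
  have h3 := Real.log_le_log (by exact_mod_cast h0) h1
  rw [Real.log_pow] at h3
  push_cast at h3
  exact h3

theorem wt_le {q k K : ℕ} (hk : 1 ≤ k) (hK : k ≤ K) :
    wt q k ≤ 2 * K * Real.log (2 * K) := by
  refine le_trans ?_ (log_av_le hk hK)
  rcases Nat.eq_zero_or_pos q with rfl | hq
  · simp only [wt, Nat.cast_zero, Real.log_zero, mul_zero]
    exact Real.log_natCast_nonneg _
  have h0 : 0 < av k := av_pos hk
  have h1 : q ^ (av k).factorization q ≤ av k := Nat.ordProj_le q h0.ne'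
  have h2 : ((q : ℝ) ^ (av k).factorization q) ≤ av k := by exact_mod_cast h1
  have hq0 : (0 : ℝ) < q := by exact_mod_cast hq
  have h3 := Real.log_le_log (pow_pos hq0 _) h2
  rwa [Real.log_pow] at h3

/-- the minimal weight of a set in an interval -/
theorem min_weight {q K u L : ℕ} (hq : 2 ≤ q) {A : Finset ℕ}
    (hA : ∀ k ∈ A, u ≤ k ∧ k ≤ u + L) (h1 : ∀ k ∈ A, 1 ≤ k) (hK : ∀ k ∈ A, k ≤ K)
    {k : ℕ} (hk : k ∈ A) (hmin : ∀ j ∈ A, wt q k ≤ wt q j) :
    ((A.card : ℝ) - 1) * wt q k ≤ L * (2 * Real.log (2 * K)) := by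
  have hlogq : 0 < Real.log q := Real.log_pos (by exact_mod_cast (by omega : 1 < q))
  have hK1 : 1 ≤ K := (h1 k hk).trans (hK k hk)
  have hlogK : 0 < 2 * Real.log (2 * K) := by
    have : (1 : ℝ) ≤ K := by exact_mod_cast hK1
    have := Real.log_pos (show (1 : ℝ) < 2 * K by linarith)
    linarith
  set e := (av k).factorization q with he
  set t : ℝ := wt q k / (2 * Real.log (2 * K)) with ht
  have hdiv : ∀ j ∈ A, q ^ e ∣ av j := by
    intro j hj
    have h2 := hmin j hj
    unfold wt at h2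
    have h3 : ((av k).factorization q : ℝ) ≤ ((av j).factorization q : ℝ) :=
      le_of_mul_le_mul_right h2 hlogq
    have h4 : (av k).factorization q ≤ (av j).factorization q := by exact_mod_cast h3
    exact (pow_dvd_pow q h4).trans (Nat.ordProj_dvd _ _)
  have hsep : ∀ i ∈ A, ∀ j ∈ A, i < j → t ≤ ((j - i : ℕ) : ℝ) := by
    intro i hi j hj hij
    rw [ht, div_le_iff₀ hlogK]
    exact gap_log hq (h1 i hi) hij (hK j hj) (hdiv i hi) (hdiv j hj)
  have hcard : 1 ≤ A.card := Finset.card_pos.2 ⟨k, hk⟩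
  have hfin : ((A.card : ℝ) - 1) * t ≤ L := by
    rcases Nat.eq_zero_or_pos ⌈t⌉₊ with h0 | h0
    · have ht0 : t ≤ 0 := Nat.ceil_eq_zero.1 h0
      have hc : (0 : ℝ) ≤ (A.card : ℝ) - 1 := by
        have : (1 : ℝ) ≤ A.card := by exact_mod_cast hcard
        linarith
      have : ((A.card : ℝ) - 1) * t ≤ 0 := mul_nonpos_of_nonneg_of_nonpos hc ht0
      have hL : (0 : ℝ) ≤ L := Nat.cast_nonneg _
      linarith
    · have h2 := card_separated h0 hA (fun i hi j hj hij => Nat.ceil_le.2 (hsep i hi j hj hij))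
      have h3 : (((A.card - 1) * ⌈t⌉₊ : ℕ) : ℝ) ≤ L := by exact_mod_cast h2
      rw [Nat.cast_mul, Nat.cast_sub hcard, Nat.cast_one] at h3
      refine le_trans ?_ h3
      apply mul_le_mul_of_nonneg_left (Nat.le_ceil t)
      have : (1 : ℝ) ≤ A.card := by exact_mod_cast hcard
      linarith
  have h5 : wt q k = t * (2 * Real.log (2 * K)) := by
    rw [ht, div_mul_cancel₀ _ hlogK.ne']
  rw [h5, ← mul_assoc]
  exact mul_le_mul_of_nonneg_right hfin hlogK.le

/-- the total weight of a prime in an interval -/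
theorem sum_wt_le {q K u L : ℕ} (hq : 2 ≤ q) (hK3 : 1 ≤ K) {A : Finset ℕ}
    (hA : ∀ k ∈ A, u ≤ k ∧ k ≤ u + L) (h1 : ∀ k ∈ A, 1 ≤ k) (hK : ∀ k ∈ A, k ≤ K) :
    ∑ k ∈ A, wt q k ≤
      2 * K * Real.log (2 * K) + L * (2 * Real.log (2 * K)) * (1 + Real.log K) := by
  have hK0 : (1 : ℝ) ≤ K := by exact_mod_cast hK3
  have hlogK : 0 ≤ Real.log (2 * K) := Real.log_nonneg (by linarith)
  have hlogK' : 0 ≤ Real.log K := Real.log_nonneg hK0
  have hL : (0 : ℝ) ≤ L := Nat.cast_nonneg _
  have hCn : 0 ≤ L * (2 * Real.log (2 * K)) := by positivity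
  rcases A.eq_empty_or_nonempty with rfl | hne
  · simp only [Finset.sum_empty]
    positivity
  obtain ⟨s, hs⟩ : ∃ s, A.card = s + 1 := ⟨A.card - 1, by have := hne.card_pos; omega⟩
  have h2 := sum_le_harmonic (wt q) (2 * K * Real.log (2 * K)) (L * (2 * Real.log (2 * K))) s A hs
    (fun k hk => wt_le (h1 k hk) (hK k hk))
    (fun A' hA' k hk hmin => min_weight hq (fun j hj => hA j (hA' hj)) (fun j hj => h1 j (hA' hj))
      (fun j hj => hK j (hA' hj)) hk hmin)
  have h3 : (harmonic s : ℝ) ≤ 1 + Real.log K := by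
    rcases Nat.eq_zero_or_pos s with rfl | hs0
    · simp only [harmonic_zero, Rat.cast_zero]
      linarith
    refine (harmonic_le_one_add_log s).trans ?_
    have hsK : s ≤ K := by
      have h4 : A ⊆ Finset.Icc 1 K := fun k hk => Finset.mem_Icc.2 ⟨h1 k hk, hK k hk⟩
      have h5 := Finset.card_le_card h4
      rw [Nat.card_Icc, hs] at h5
      omega
    have : Real.log s ≤ Real.log K :=
      Real.log_le_log (by exact_mod_cast hs0) (by exact_mod_cast hsK)
    linarith
  have h6 := mul_le_mul_of_nonneg_left h3 hCn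
  linarith

end Pool.Agent.Helper98.PillaiCount
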